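import Pool.Agent.V11196.RR.Fin

/-!
Complete description of the periodic coefficient sequences `B ≥ 0` for which all positive
solutions of `x_{n+1} = 1 / (B_n x_n + x_{n-1})` are bounded (MP_2c9a54, Q1).
-/

namespace Pool.Agent.Results.MP_2c9a54_an.BoundedIff

open V11196.RR (IsSol J)

noncomputable section

/-- `B` is a nonnegative sequence of least period exactly `k ≥ 2`. -/
structure Data (B : ℕ → ℝ) (k : ℕ) : Prop where
  two_le : 2 ≤ k
  nonneg : ∀ n, 0 ≤ B n
  periodic : ∀ n, B (n + k) = B n
  least : ∀ p, 0 < p → p < k → ¬ ∀ n, B (n + p) = B n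

/-- First alternative: the coefficients vanish on one parity class, and each of the two classes
modulo `4` that make up the other parity class contains a positive coefficient. -/
def AltI (B : ℕ → ℝ) (k : ℕ) : Prop :=
  ∃ m < 4, (∀ i < k, B (m + 2 * i) = 0) ∧ (∃ i < k, 0 < B (m + 1 + 4 * i)) ∧
    ∃ i < k, 0 < B (m + 3 + 4 * i)

/-- Second alternative: every class modulo `4` contains a positive coefficient, and whenever the
iteration of the explicit transfer map `J`, started at `(m, 1, 1)` with `B_m > 0`, returns to the
time class of `m` modulo `k` (within the first `k` steps), its last component is less than `1`.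
(When all `B_n` are positive this last component is the product of the numbers
`B_n / (1 + B_n B_{n+2})` over the cycle of `n ↦ n + 3` through `m`.) -/
def AltII (B : ℕ → ℝ) (k : ℕ) : Prop :=
  (∀ m < 4, ∃ i < k, 0 < B (m + 4 * i)) ∧
    ∀ m < k, ∀ j ≤ k, 0 < j → 0 < B m → ((J B)^[j] (m, 1, 1)).1 ≡ m [MOD k] →
      ((J B)^[j] (m, 1, 1)).2.2 < 1

/-- All positive solutions are bounded if and only if one of the two alternatives holds;
if neither holds, then every positive solution is unbounded. -/
theorem result (B : ℕ → ℝ) (k : ℕ) (h : Data B k) :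
    ((∀ x, IsSol B x → BddAbove (Set.range x)) ↔ (AltI B k ∨ AltII B k)) ∧
      (¬ (AltI B k ∨ AltII B k) → ∀ x, IsSol B x → ¬ BddAbove (Set.range x)) := by
  have hk : 0 < k := by have := h.two_le; omega
  have e : (AltI B k ∨ AltII B k) ↔ (V11196.RR.CondI B ∨ V11196.RR.CondII B k) := by
    rw [V11196.RR.condI_iff hk h.periodic, V11196.RR.condII_iff h.nonneg hk h.periodic]
    rfl
  rw [e]
  obtain ⟨h1, h2⟩ := V11196.RR.main h.two_le h.nonneg h.periodic h.least
  refine ⟨⟨fun hall => ?_, h1⟩, h2⟩
  by_contra hcon
  obtain ⟨x, hx⟩ := V11196.RR.exists_sol B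
  exact h2 hcon x hx (hall x hx)

end

end Pool.Agent.Results.MP_2c9a54_an.BoundedIff
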